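import Pool.Agent.H21.RCut3

namespace Pool.Agent.Results.MP_e057e5_lc.NPHard

open Pool.Agent.H11.PT Pool.Agent.H21.RCutDefs

theorem result (L : List Bool → Prop) (hL : InNP L) :
    ∃ f : List Bool → List ℕ × List (ℕ × ℕ) × ℕ, PolyTime id bits f ∧ ∀ x,
      Simple (f x).1 (f x).2.1 ∧ Rigid (f x).1.toFinset (f x).2.1.toFinset ∧
        (L x ↔ Cut (f x).1.toFinset (f x).2.1.toFinset (f x).2.2) := by
  obtain ⟨g, hg, e⟩ := hard_SAT3 L hL
  exact ⟨fun x => H21.RCut.red (g x), (H21.RCut.red_pt.comp hg).polyTime_raw, fun x =>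
    ⟨(H21.RCut.main _).1, (H21.RCut.main _).2.1, (e x).trans (H21.RCut.main _).2.2⟩⟩

end Pool.Agent.Results.MP_e057e5_lc.NPHard
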